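import Pool.Agent.helper616_TX.Defs

/-!
# Project TX (helper616): the mean square of the exponential sums with weights over the coefficient
-/

set_option autoImplicit false
set_option maxHeartbeats 4000000

open Finset MeasureTheory Filter Topology
open Pool.Agent.helper616_TS (e LogBdd MeanZero)

namespace Pool.Agent.helper616_TW

namespace TX1


namespace Msw

lemma e_re (x : ℝ) : (e x).re = Real.cos (2 * Real.pi * x) := by
  unfold e
  rw [Complex.exp_ofReal_mul_I_re]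

lemma e_im (x : ℝ) : (e x).im = Real.sin (2 * Real.pi * x) := by
  unfold e
  rw [Complex.exp_ofReal_mul_I_im]

lemma normsq (s : Finset ℕ) (w θ : ℕ → ℝ) : ‖∑ x ∈ s, (w x : ℂ) * e (θ x)‖ ^ 2 =
    ∑ x ∈ s, ∑ y ∈ s, w x * w y * Real.cos (2 * Real.pi * (θ x - θ y)) := by
  rw [Complex.sq_norm, Complex.normSq_apply, Complex.re_sum, Complex.im_sum, Finset.sum_mul_sum,
    Finset.sum_mul_sum, ← Finset.sum_add_distrib]
  refine Finset.sum_congr rfl fun x _ => ?_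
  rw [← Finset.sum_add_distrib]
  refine Finset.sum_congr rfl fun y _ => ?_
  rw [Complex.re_ofReal_mul, Complex.im_ofReal_mul, Complex.re_ofReal_mul, Complex.im_ofReal_mul,
    e_re, e_im, e_re, e_im, mul_sub, Real.cos_sub]
  ring

lemma icos (a b c : ℝ) (hc : c ≠ 0) : |∫ l in a..b, Real.cos (c * l)| ≤ 2 / |c| := by
  rw [intervalIntegral.integral_comp_mul_left (fun x => Real.cos x) hc, integral_cos, smul_eq_mul,
    abs_mul, abs_inv]
  have h1 : |Real.sin (c * b) - Real.sin (c * a)| ≤ 2 := by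
    have h2 := Real.sin_le_one (c * b)
    have h3 := Real.neg_one_le_sin (c * b)
    have h4 := Real.sin_le_one (c * a)
    have h5 := Real.neg_one_le_sin (c * a)
    rw [abs_le]
    constructor <;> linarith
  rw [div_eq_inv_mul]
  exact mul_le_mul_of_nonneg_left h1 (by positivity)

lemma icos' (a b c : ℝ) (hab : a ≤ b) : |∫ l in a..b, Real.cos (c * l)| ≤ b - a := by
  have h := intervalIntegral.norm_integral_le_of_norm_le_const (a := a) (b := b) (C := 1)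
    (f := fun l => Real.cos (c * l)) (fun x _ => by
      rw [Real.norm_eq_abs]; exact Real.abs_cos_le_one _)
  rw [Real.norm_eq_abs, one_mul, abs_of_nonneg (by linarith : 0 ≤ b - a)] at h
  exact h

lemma interp (m A B θ : ℝ) (hm : 0 ≤ m) (hA : m ≤ A) (hB : m ≤ B) (h0 : 0 < θ) (h1 : θ ≤ 1) :
    m ≤ A ^ (1 - θ) * B ^ θ := by
  rcases hm.eq_or_lt with h | h
  · rw [← h] at hA hB ⊢
    positivity
  · calc m = m ^ (1 - θ) * m ^ θ := by
          rw [← Real.rpow_add h, sub_add_cancel, Real.rpow_one]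
      _ ≤ A ^ (1 - θ) * B ^ θ := by
          have h2 : m ^ (1 - θ) ≤ A ^ (1 - θ) := Real.rpow_le_rpow hm hA (by linarith)
          have h3 : m ^ θ ≤ B ^ θ := Real.rpow_le_rpow hm hB h0.le
          have h4 : 0 ≤ m ^ θ := Real.rpow_nonneg hm _
          have h5 : 0 ≤ A ^ (1 - θ) := Real.rpow_nonneg (hm.trans hA) _
          exact mul_le_mul h2 h3 h4 h5

/-- `x ^ k - y ^ k ≥ x ^ (k - 1) * (x - y)` -/
lemma powdiff (k : ℕ) (hk : 1 ≤ k) (x y : ℝ) (hy : 0 ≤ y) (hyx : y ≤ x) :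
    x ^ (k - 1) * (x - y) ≤ x ^ k - y ^ k := by
  obtain ⟨j, rfl⟩ : ∃ j, k = j + 1 := ⟨k - 1, by omega⟩
  rw [Nat.add_sub_cancel]
  have h1 : y ^ j ≤ x ^ j := pow_le_pow_left₀ hy hyx j
  have h2 : y ^ j * y ≤ x ^ j * y := mul_le_mul_of_nonneg_right h1 hy
  rw [pow_succ, pow_succ]
  nlinarith

lemma powdiff' (k : ℕ) (hk : 1 ≤ k) (x y : ℝ) (hx : 0 ≤ x) (hy : 0 ≤ y) :
    (max x y) ^ (k - 1) * |x - y| ≤ |x ^ k - y ^ k| := by
  rcases le_total y x with h | h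
  · rw [max_eq_left h, abs_of_nonneg (by linarith : 0 ≤ x - y)]
    exact (powdiff k hk x y hy h).trans (le_abs_self _)
  · rw [max_eq_right h, abs_sub_comm, abs_of_nonneg (by linarith : 0 ≤ y - x), abs_sub_comm]
    exact (powdiff k hk y x hx h).trans (le_abs_self _)

/-- the bound for one pair -/
lemma pair (k : ℕ) (hk : 1 ≤ k) (θ : ℝ) (h0 : 0 < θ) (h1 : θ ≤ 1) (h2 : (k : ℝ) * θ ≤ 2)
    (a b ξ : ℝ) (hab : a < b) (hξ : ξ ≠ 0) (P x y : ℕ) (hx : 1 ≤ x) (hxP : x ≤ P) (hy : 1 ≤ y)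
    (hyP : y ≤ P) (hxy : x ≠ y) :
    |∫ l in a..b, Real.cos (2 * Real.pi * (ξ * ((x : ℝ) ^ k - (y : ℝ) ^ k)) * l)| ≤
      (b - a) ^ (1 - θ) * |ξ| ^ (-θ) * (P : ℝ) ^ (2 - k * θ) * ((1 / (x : ℝ)) * (1 / |(x : ℝ) - y|)) := by
  have hx0 : (0 : ℝ) < x := by exact_mod_cast hx
  have hy0 : (0 : ℝ) < y := by exact_mod_cast hy
  have hxP' : (x : ℝ) ≤ P := by exact_mod_cast hxP
  have hyP' : (y : ℝ) ≤ P := by exact_mod_cast hyP
  have hne : (x : ℝ) ≠ y := by exact_mod_cast hxy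
  have hd : 0 < |(x : ℝ) - y| := abs_pos.2 (sub_ne_zero.2 hne)
  obtain ⟨m, hm⟩ : ∃ m : ℝ, m = max (x : ℝ) y := ⟨_, rfl⟩
  have hxm : (x : ℝ) ≤ m := by rw [hm]; exact le_max_left _ _
  have hym : (y : ℝ) ≤ m := by rw [hm]; exact le_max_right _ _
  have hmP : m ≤ P := by rw [hm]; exact max_le hxP' hyP'
  have hm0 : 0 < m := hx0.trans_le hxm
  have hP0 : (0 : ℝ) < P := hm0.trans_le hmP
  have hpd := powdiff' k hk (x : ℝ) y hx0.le hy0.le
  rw [← hm] at hpd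
  have hdm : |(x : ℝ) - y| ≤ m := by
    rw [abs_le]; constructor <;> linarith
  obtain ⟨d, hdd⟩ : ∃ d : ℝ, d = |(x : ℝ) - y| := ⟨_, rfl⟩
  rw [← hdd] at hd hpd hdm ⊢
  have hz : 0 < |ξ| := abs_pos.2 hξ
  have hpos : 0 < |(x : ℝ) ^ k - (y : ℝ) ^ k| := lt_of_lt_of_le (by positivity) hpd
  have hc : 2 * Real.pi * (ξ * ((x : ℝ) ^ k - (y : ℝ) ^ k)) ≠ 0 := by
    have : (x : ℝ) ^ k - (y : ℝ) ^ k ≠ 0 := abs_pos.1 hpos
    have hpi := Real.pi_pos
    positivity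
  have h6 : |2 * Real.pi * (ξ * ((x : ℝ) ^ k - (y : ℝ) ^ k))| =
      2 * (Real.pi * (|ξ| * |(x : ℝ) ^ k - (y : ℝ) ^ k|)) := by
    rw [abs_mul, abs_mul, abs_mul, abs_of_pos Real.pi_pos, abs_of_pos (by norm_num : (0 : ℝ) < 2)]
    ring
  have hb : 2 / |2 * Real.pi * (ξ * ((x : ℝ) ^ k - (y : ℝ) ^ k))| ≤ |ξ|⁻¹ * (m ^ (k - 1) * d)⁻¹ := by
    have h3 : |ξ| * (m ^ (k - 1) * d) ≤ |ξ| * |(x : ℝ) ^ k - (y : ℝ) ^ k| :=
      mul_le_mul_of_nonneg_left hpd hz.le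
    have h4 : 1 * (|ξ| * |(x : ℝ) ^ k - (y : ℝ) ^ k|) ≤
        Real.pi * (|ξ| * |(x : ℝ) ^ k - (y : ℝ) ^ k|) :=
      mul_le_mul_of_nonneg_right (by linarith [Real.pi_gt_three]) (by positivity)
    rw [one_mul] at h4
    rw [h6, ← mul_inv, div_mul_eq_div_div, div_self (by norm_num : (2 : ℝ) ≠ 0), one_div]
    exact inv_anti₀ (by positivity) (h3.trans h4)
  have hI := interp _ (b - a) (|ξ|⁻¹ * (m ^ (k - 1) * d)⁻¹) θ (abs_nonneg _)
    (icos' a b (2 * Real.pi * (ξ * ((x : ℝ) ^ k - (y : ℝ) ^ k))) hab.le)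
    ((icos a b _ hc).trans hb) h0 h1
  refine hI.trans ?_
  rw [Real.mul_rpow (by positivity) (by positivity), Real.inv_rpow (abs_nonneg _), ← Real.rpow_neg
    (abs_nonneg _)]
  have hkey : ((m ^ (k - 1) * d)⁻¹) ^ θ ≤ (P : ℝ) ^ (2 - k * θ) * ((1 / (x : ℝ)) * (1 / d)) := by
    have e1 : ((m ^ (k - 1) * d)⁻¹) ^ θ = m ^ (1 - k * θ) * m ^ (θ - 1) * d ^ (-θ) := by
      rw [Real.inv_rpow (by positivity), ← Real.rpow_neg (by positivity),
        Real.mul_rpow (by positivity) hd.le, ← Real.rpow_natCast m (k - 1), ← Real.rpow_mul hm0.le,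
        ← Real.rpow_add hm0]
      congr 2
      push_cast [Nat.cast_sub hk]
      ring
    have e2 : d ^ (-θ) = d ^ (1 - θ) * d⁻¹ := by
      rw [← Real.rpow_neg_one d, ← Real.rpow_add hd]
      congr 1
      ring
    have e3 : d ^ (1 - θ) ≤ m ^ (1 - θ) := Real.rpow_le_rpow hd.le hdm (by linarith)
    have e4 : m ^ (θ - 1) * m ^ (1 - θ) = 1 := by
      rw [← Real.rpow_add hm0]
      ring_nf
      exact Real.rpow_zero m
    have e5 : m ^ (1 - k * θ) = m ^ (2 - k * θ) * m⁻¹ := by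
      rw [← Real.rpow_neg_one m, ← Real.rpow_add hm0]
      congr 1
      ring
    have e6 : m ^ (2 - k * θ) ≤ (P : ℝ) ^ (2 - k * θ) := Real.rpow_le_rpow hm0.le hmP (by linarith)
    have e7 : m⁻¹ ≤ (x : ℝ)⁻¹ := inv_anti₀ hx0 hxm
    rw [e1, e2]
    calc m ^ (1 - k * θ) * m ^ (θ - 1) * (d ^ (1 - θ) * d⁻¹)
        ≤ m ^ (1 - k * θ) * m ^ (θ - 1) * (m ^ (1 - θ) * d⁻¹) := by
          refine mul_le_mul_of_nonneg_left (mul_le_mul_of_nonneg_right e3 (by positivity))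
            (by positivity)
      _ = m ^ (1 - k * θ) * (m ^ (θ - 1) * m ^ (1 - θ)) * d⁻¹ := by ring
      _ = m ^ (2 - k * θ) * m⁻¹ * d⁻¹ := by rw [e4, e5, mul_one]
      _ ≤ (P : ℝ) ^ (2 - k * θ) * (x : ℝ)⁻¹ * d⁻¹ := by
          refine mul_le_mul_of_nonneg_right ?_ (by positivity)
          exact mul_le_mul e6 e7 (by positivity) (by positivity)
      _ = _ := by rw [one_div, one_div, mul_assoc]
  calc (b - a) ^ (1 - θ) * (|ξ| ^ (-θ) * ((m ^ (k - 1) * d)⁻¹) ^ θ)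
      ≤ (b - a) ^ (1 - θ) * (|ξ| ^ (-θ) * ((P : ℝ) ^ (2 - k * θ) * ((1 / (x : ℝ)) * (1 / d)))) := by
        have : 0 ≤ b - a := by linarith
        refine mul_le_mul_of_nonneg_left (mul_le_mul_of_nonneg_left hkey (by positivity))
          (by positivity)
    _ = _ := by ring

lemma harm (P : ℕ) : ∑ d ∈ Icc 1 P, (1 / (d : ℝ)) ≤ 1 + Real.log P := by
  have h := harmonic_le_one_add_log P
  rw [harmonic_eq_sum_Icc] at h
  push_cast at h
  simpa [one_div] using h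

/-- the sum over `y` -/
lemma sumy (P x : ℕ) (hxP : x ≤ P) :
    ∑ y ∈ (Icc 1 P).filter (fun y => x ≠ y), (1 / |(x : ℝ) - y|) ≤ 2 * (1 + Real.log P) := by
  have hsplit : ((Icc 1 P).filter (fun y => x ≠ y)) =
      ((Icc 1 P).filter (fun y => y < x)) ∪ ((Icc 1 P).filter (fun y => x < y)) := by
    ext y
    simp only [mem_filter, mem_union, mem_Icc]
    constructor
    · rintro ⟨h1, h2⟩
      rcases lt_or_gt_of_ne h2 with h | h
      · exact Or.inr ⟨h1, h⟩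
      · exact Or.inl ⟨h1, h⟩
    · rintro (⟨h1, h2⟩ | ⟨h1, h2⟩)
      · exact ⟨h1, by omega⟩
      · exact ⟨h1, by omega⟩
  have hdis : Disjoint ((Icc 1 P).filter (fun y => y < x)) ((Icc 1 P).filter (fun y => x < y)) := by
    rw [Finset.disjoint_left]
    intro y h1 h2
    simp only [mem_filter] at h1 h2
    omega
  rw [hsplit, Finset.sum_union hdis]
  have hA : ∑ y ∈ (Icc 1 P).filter (fun y => y < x), (1 / |(x : ℝ) - y|) ≤
      ∑ d ∈ Icc 1 P, (1 / (d : ℝ)) := by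
    have e1 : ∑ y ∈ (Icc 1 P).filter (fun y => y < x), (1 / |(x : ℝ) - y|) =
        ∑ d ∈ ((Icc 1 P).filter (fun y => y < x)).image (fun y => x - y), (1 / (d : ℝ)) := by
      rw [Finset.sum_image]
      · refine Finset.sum_congr rfl fun y hy => ?_
        rw [mem_filter] at hy
        have h1 : (y : ℝ) ≤ x := by exact_mod_cast hy.2.le
        rw [Nat.cast_sub hy.2.le, abs_of_nonneg (by linarith)]
      · intro y hy z hz h
        rw [Finset.mem_coe, mem_filter] at hy hz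
        simp only at h
        omega
    rw [e1]
    refine Finset.sum_le_sum_of_subset_of_nonneg ?_ fun d _ _ => by positivity
    intro d hd
    rw [mem_image] at hd
    obtain ⟨y, hy, rfl⟩ := hd
    rw [mem_filter, mem_Icc] at hy
    rw [mem_Icc]
    omega
  have hB : ∑ y ∈ (Icc 1 P).filter (fun y => x < y), (1 / |(x : ℝ) - y|) ≤
      ∑ d ∈ Icc 1 P, (1 / (d : ℝ)) := by
    have e1 : ∑ y ∈ (Icc 1 P).filter (fun y => x < y), (1 / |(x : ℝ) - y|) =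
        ∑ d ∈ ((Icc 1 P).filter (fun y => x < y)).image (fun y => y - x), (1 / (d : ℝ)) := by
      rw [Finset.sum_image]
      · refine Finset.sum_congr rfl fun y hy => ?_
        rw [mem_filter] at hy
        have h1 : (x : ℝ) ≤ y := by exact_mod_cast hy.2.le
        rw [Nat.cast_sub hy.2.le, abs_sub_comm, abs_of_nonneg (by linarith)]
      · intro y hy z hz h
        rw [Finset.mem_coe, mem_filter] at hy hz
        simp only at h
        omega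
    rw [e1]
    refine Finset.sum_le_sum_of_subset_of_nonneg ?_ fun d _ _ => by positivity
    intro d hd
    rw [mem_image] at hd
    obtain ⟨y, hy, rfl⟩ := hd
    rw [mem_filter, mem_Icc] at hy
    rw [mem_Icc]
    omega
  have := harm P
  linarith

/-- the double sum -/
lemma total (k : ℕ) (hk : 1 ≤ k) (θ : ℝ) (h0 : 0 < θ) (h1 : θ ≤ 1) (h2 : (k : ℝ) * θ ≤ 2)
    (a b ξ : ℝ) (hab : a < b) (hξ : ξ ≠ 0) (P : ℕ) :
    ∑ x ∈ Icc 1 P, ∑ y ∈ Icc 1 P,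
      |∫ l in a..b, Real.cos (2 * Real.pi * (ξ * ((x : ℝ) ^ k - (y : ℝ) ^ k)) * l)| ≤
      P * (b - a) + (b - a) ^ (1 - θ) * |ξ| ^ (-θ) * (P : ℝ) ^ (2 - k * θ) *
        (2 * (1 + Real.log P) ^ 2) := by
  obtain ⟨c, hc⟩ : ∃ c : ℝ, c = (b - a) ^ (1 - θ) * |ξ| ^ (-θ) * (P : ℝ) ^ (2 - k * θ) := ⟨_, rfl⟩
  have hba : 0 ≤ b - a := by linarith
  have hc0 : 0 ≤ c := by rw [hc]; positivity
  have hl : 0 ≤ Real.log P := Real.log_natCast_nonneg P
  have hx : ∀ x ∈ Icc 1 P, ∑ y ∈ Icc 1 P,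
      |∫ l in a..b, Real.cos (2 * Real.pi * (ξ * ((x : ℝ) ^ k - (y : ℝ) ^ k)) * l)| ≤
      (b - a) + c * (2 * (1 + Real.log P)) * (1 / (x : ℝ)) := by
    intro x hx
    rw [mem_Icc] at hx
    rw [← Finset.sum_filter_add_sum_filter_not (Icc 1 P) (fun y => x = y)]
    refine add_le_add ?_ ?_
    · rw [Finset.filter_eq (Icc 1 P) x, if_pos (mem_Icc.2 hx), Finset.sum_singleton]
      exact icos' a b _ hab.le
    · calc ∑ y ∈ (Icc 1 P).filter (fun y => ¬ x = y),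
            |∫ l in a..b, Real.cos (2 * Real.pi * (ξ * ((x : ℝ) ^ k - (y : ℝ) ^ k)) * l)|
          ≤ ∑ y ∈ (Icc 1 P).filter (fun y => ¬ x = y), c * ((1 / (x : ℝ)) * (1 / |(x : ℝ) - y|)) := by
            refine Finset.sum_le_sum fun y hy => ?_
            rw [mem_filter, mem_Icc] at hy
            rw [hc]
            exact pair k hk θ h0 h1 h2 a b ξ hab hξ P x y hx.1 hx.2 hy.1.1 hy.1.2 hy.2
        _ = c * (1 / (x : ℝ)) * ∑ y ∈ (Icc 1 P).filter (fun y => x ≠ y), (1 / |(x : ℝ) - y|) := by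
            rw [Finset.mul_sum]
            exact Finset.sum_congr rfl fun y _ => by ring
        _ ≤ c * (1 / (x : ℝ)) * (2 * (1 + Real.log P)) :=
            mul_le_mul_of_nonneg_left (sumy P x hx.2) (by positivity)
        _ = _ := by ring
  calc ∑ x ∈ Icc 1 P, ∑ y ∈ Icc 1 P,
        |∫ l in a..b, Real.cos (2 * Real.pi * (ξ * ((x : ℝ) ^ k - (y : ℝ) ^ k)) * l)|
      ≤ ∑ x ∈ Icc 1 P, ((b - a) + c * (2 * (1 + Real.log P)) * (1 / (x : ℝ))) :=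
        Finset.sum_le_sum hx
    _ = P * (b - a) + c * (2 * (1 + Real.log P)) * ∑ x ∈ Icc 1 P, (1 / (x : ℝ)) := by
        rw [Finset.sum_add_distrib, Finset.sum_const, ← Finset.mul_sum, Nat.card_Icc, nsmul_eq_mul,
          Nat.add_sub_cancel]
    _ ≤ P * (b - a) + c * (2 * (1 + Real.log P)) * (1 + Real.log P) := by
        have := mul_le_mul_of_nonneg_left (harm P) (by positivity : 0 ≤ c * (2 * (1 + Real.log P)))
        linarith
    _ = _ := by rw [hc]; ring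

lemma rho_pos (k : ℕ) (hk : 1 ≤ k) : 0 < rho k := by
  have : (0 : ℝ) < k := by exact_mod_cast hk
  unfold rho
  exact lt_min one_pos (by positivity)

lemma rho_le (k : ℕ) : rho k ≤ 1 := min_le_left _ _

lemma rho_mul (k : ℕ) (hk : 1 ≤ k) : (k : ℝ) * rho k ≤ 2 := by
  have h : (0 : ℝ) < k := by exact_mod_cast hk
  have h1 : rho k ≤ 2 / k := min_le_right _ _
  calc (k : ℝ) * rho k ≤ k * (2 / k) := mul_le_mul_of_nonneg_left h1 h.le
    _ = 2 := by field_simp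

lemma wbd (w : ℕ → ℝ) (C0 : ℝ) (k0 : ℕ) (hw : ∀ n : ℕ, |w n| ≤ C0 * (Real.log (n + 2)) ^ k0)
    (P x : ℕ) (hP : 2 ≤ P) (hx : x ≤ P) : |w x| ≤ (|C0| + 1) * (2 * Real.log P) ^ k0 := by
  have hP2 : (2 : ℝ) ≤ P := by exact_mod_cast hP
  have hx2 : (x : ℝ) ≤ P := by exact_mod_cast hx
  have hx0 : (0 : ℝ) ≤ x := Nat.cast_nonneg x
  have h1 : Real.log (x + 2) ≤ 2 * Real.log P := by
    have e : 2 * Real.log P = Real.log ((P : ℝ) ^ 2) := by rw [Real.log_pow]; norm_num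
    rw [e]
    refine Real.log_le_log (by positivity) ?_
    nlinarith
  have h2 : 0 ≤ Real.log ((x : ℝ) + 2) := Real.log_nonneg (by linarith)
  refine (hw x).trans ?_
  have h3 : (Real.log ((x : ℝ) + 2)) ^ k0 ≤ (2 * Real.log P) ^ k0 := pow_le_pow_left₀ h2 h1 k0
  have h4 : 0 ≤ (Real.log ((x : ℝ) + 2)) ^ k0 := pow_nonneg h2 k0
  calc C0 * (Real.log ((x : ℝ) + 2)) ^ k0 ≤ (|C0| + 1) * (Real.log ((x : ℝ) + 2)) ^ k0 :=
        mul_le_mul_of_nonneg_right (by linarith [le_abs_self C0]) h4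
    _ ≤ _ := mul_le_mul_of_nonneg_left h3 (by positivity)

/-- the integral -/
lemma integ (k : ℕ) (a b ξ : ℝ) (hab : a < b) (w : ℕ → ℝ) (P : ℕ) :
    ∫⁻ l in Set.Icc a b, ‖∑ x ∈ Icc 1 P, (w x : ℂ) * e (ξ * (l * (x : ℝ) ^ k))‖ₑ ^ 2 =
      ENNReal.ofReal (∑ x ∈ Icc 1 P, ∑ y ∈ Icc 1 P, w x * w y *
        ∫ l in a..b, Real.cos (2 * Real.pi * (ξ * ((x : ℝ) ^ k - (y : ℝ) ^ k)) * l)) := by
  have hsq : ∀ l : ℝ, ‖∑ x ∈ Icc 1 P, (w x : ℂ) * e (ξ * (l * (x : ℝ) ^ k))‖ ^ 2 =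
      ∑ x ∈ Icc 1 P, ∑ y ∈ Icc 1 P, w x * w y *
        Real.cos (2 * Real.pi * (ξ * ((x : ℝ) ^ k - (y : ℝ) ^ k)) * l) := by
    intro l
    rw [normsq (Icc 1 P) w (fun x => ξ * (l * (x : ℝ) ^ k))]
    refine Finset.sum_congr rfl fun x _ => Finset.sum_congr rfl fun y _ => ?_
    congr 2
    ring
  have hcont : Continuous fun l : ℝ => ∑ x ∈ Icc 1 P, ∑ y ∈ Icc 1 P, w x * w y *
        Real.cos (2 * Real.pi * (ξ * ((x : ℝ) ^ k - (y : ℝ) ^ k)) * l) := by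
    fun_prop
  have h1 : ∀ l : ℝ, ‖∑ x ∈ Icc 1 P, (w x : ℂ) * e (ξ * (l * (x : ℝ) ^ k))‖ₑ ^ 2 =
      ENNReal.ofReal (∑ x ∈ Icc 1 P, ∑ y ∈ Icc 1 P, w x * w y *
        Real.cos (2 * Real.pi * (ξ * ((x : ℝ) ^ k - (y : ℝ) ^ k)) * l)) := by
    intro l
    rw [← hsq l, ENNReal.ofReal_pow (norm_nonneg _), ofReal_norm]
  simp only [h1]
  rw [← ofReal_integral_eq_lintegral_ofReal]
  · congr 1
    rw [MeasureTheory.integral_Icc_eq_integral_Ioc, ← intervalIntegral.integral_of_le hab.le,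
      intervalIntegral.integral_finsetSum]
    · refine Finset.sum_congr rfl fun x _ => ?_
      rw [intervalIntegral.integral_finsetSum]
      · refine Finset.sum_congr rfl fun y _ => ?_
        rw [intervalIntegral.integral_const_mul]
      · intro y _
        refine Continuous.intervalIntegrable ?_ _ _
        fun_prop
    · intro x _
      refine Continuous.intervalIntegrable ?_ _ _
      fun_prop
  · exact hcont.continuousOn.integrableOn_Icc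
  · refine Filter.Eventually.of_forall fun l => ?_
    show 0 ≤ ∑ x ∈ Icc 1 P, ∑ y ∈ Icc 1 P, w x * w y *
        Real.cos (2 * Real.pi * (ξ * ((x : ℝ) ^ k - (y : ℝ) ^ k)) * l)
    rw [← hsq l]
    positivity

end Msw

open Msw in
theorem msw (k : ℕ) (hk : 1 ≤ k) (a b : ℝ) (ha : 0 < a) (hab : a < b) (w : ℕ → ℝ) (hw : LogBdd w) :
    ∃ (C : ℝ) (K : ℕ), 0 < C ∧ ∀ P : ℕ, 2 ≤ P → ∀ ξ : ℝ, 1 ≤ (P : ℝ) ^ k * |ξ| →
      ∫⁻ l in Set.Icc a b, ‖∑ x ∈ Icc 1 P, (w x : ℂ) * e (ξ * (l * (x : ℝ) ^ k))‖ₑ ^ 2 ≤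
        ENNReal.ofReal (C * (Real.log P) ^ K * (P + (P : ℝ) ^ 2 * ((P : ℝ) ^ k * |ξ|) ^ (-rho k))) := by
  obtain ⟨C0, k0, hw⟩ := hw
  obtain ⟨θ, hθ⟩ : ∃ θ : ℝ, θ = rho k := ⟨_, rfl⟩
  have h0 : 0 < θ := by rw [hθ]; exact rho_pos k hk
  have h1 : θ ≤ 1 := by rw [hθ]; exact rho_le k
  have h2 : (k : ℝ) * θ ≤ 2 := by rw [hθ]; exact rho_mul k hk
  have hba : 0 < b - a := by linarith
  rw [← hθ]
  refine ⟨((|C0| + 1) * 2 ^ k0) ^ 2 * (4 * (b - a) + 18 * (b - a) ^ (1 - θ)), 2 * k0 + 2,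
    by positivity, ?_⟩
  intro P hP ξ hξ
  have hP2 : (2 : ℝ) ≤ P := by exact_mod_cast hP
  have hP0 : (0 : ℝ) < P := by linarith
  have hξ0 : ξ ≠ 0 := by
    rintro rfl
    rw [abs_zero, mul_zero] at hξ
    linarith
  have hz : 0 < |ξ| := abs_pos.2 hξ0
  rw [integ k a b ξ hab w P]
  refine ENNReal.ofReal_le_ofReal ?_
  obtain ⟨L, hL⟩ : ∃ L : ℝ, L = Real.log P := ⟨_, rfl⟩
  have hL2 : 1 / 2 ≤ L := by
    rw [hL]
    have := Real.log_le_log (by norm_num) hP2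
    linarith [Real.log_two_gt_d9]
  obtain ⟨B, hB⟩ : ∃ B : ℝ, B = (|C0| + 1) * (2 * L) ^ k0 := ⟨_, rfl⟩
  have hB0 : 0 ≤ B := by rw [hB]; positivity
  have hwB : ∀ x ∈ Icc 1 P, |w x| ≤ B := by
    intro x hx
    rw [hB, hL]
    exact wbd w C0 k0 hw P x hP (mem_Icc.1 hx).2
  have hT := total k hk θ h0 h1 h2 a b ξ hab hξ0 P
  rw [← hL] at hT ⊢
  have hpow : |ξ| ^ (-θ) * (P : ℝ) ^ (2 - k * θ) = (P : ℝ) ^ 2 * ((P : ℝ) ^ k * |ξ|) ^ (-θ) := by
    rw [Real.mul_rpow (by positivity) hz.le, ← Real.rpow_natCast (P : ℝ) k,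
      ← Real.rpow_mul hP0.le, ← Real.rpow_natCast (P : ℝ) 2, mul_comm (|ξ| ^ (-θ)), ← mul_assoc,
      ← Real.rpow_add hP0]
    congr 2
    push_cast
    ring
  obtain ⟨Q, hQ⟩ : ∃ Q : ℝ, Q = (P : ℝ) ^ 2 * ((P : ℝ) ^ k * |ξ|) ^ (-θ) := ⟨_, rfl⟩
  have hQ0 : 0 ≤ Q := by rw [hQ]; positivity
  rw [mul_assoc ((b - a) ^ (1 - θ)), hpow, ← hQ] at hT
  rw [← hQ]
  obtain ⟨g, hg⟩ : ∃ g : ℝ, g = (b - a) ^ (1 - θ) := ⟨_, rfl⟩
  have hg0 : 0 ≤ g := by rw [hg]; positivity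
  rw [← hg] at hT ⊢
  calc ∑ x ∈ Icc 1 P, ∑ y ∈ Icc 1 P, w x * w y *
        ∫ l in a..b, Real.cos (2 * Real.pi * (ξ * ((x : ℝ) ^ k - (y : ℝ) ^ k)) * l)
      ≤ ∑ x ∈ Icc 1 P, ∑ y ∈ Icc 1 P, B ^ 2 *
        |∫ l in a..b, Real.cos (2 * Real.pi * (ξ * ((x : ℝ) ^ k - (y : ℝ) ^ k)) * l)| := by
        refine Finset.sum_le_sum fun x hx => Finset.sum_le_sum fun y hy => ?_
        refine (le_abs_self _).trans ?_
        rw [abs_mul, abs_mul, sq]
        refine mul_le_mul_of_nonneg_right ?_ (abs_nonneg _)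
        exact mul_le_mul (hwB x hx) (hwB y hy) (abs_nonneg _) hB0
    _ = B ^ 2 * ∑ x ∈ Icc 1 P, ∑ y ∈ Icc 1 P,
        |∫ l in a..b, Real.cos (2 * Real.pi * (ξ * ((x : ℝ) ^ k - (y : ℝ) ^ k)) * l)| := by
        rw [Finset.mul_sum]
        exact Finset.sum_congr rfl fun x _ => by rw [Finset.mul_sum]
    _ ≤ B ^ 2 * (P * (b - a) + g * Q * (2 * (1 + L) ^ 2)) :=
        mul_le_mul_of_nonneg_left hT (by positivity)
    _ ≤ B ^ 2 * ((4 * (b - a) + 18 * g) * L ^ 2 * (P + Q)) := by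
        refine mul_le_mul_of_nonneg_left ?_ (by positivity)
        have e1 : (1 : ℝ) ≤ 4 * L ^ 2 := by nlinarith
        have e2 : 2 * (1 + L) ^ 2 ≤ 18 * L ^ 2 := by nlinarith
        have e3 : P * (b - a) * 1 ≤ P * (b - a) * (4 * L ^ 2) :=
          mul_le_mul_of_nonneg_left e1 (by positivity)
        have e4 : g * Q * (2 * (1 + L) ^ 2) ≤ g * Q * (18 * L ^ 2) :=
          mul_le_mul_of_nonneg_left e2 (by positivity)
        have e5 : 0 ≤ 4 * (b - a) * L ^ 2 * Q := by positivity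
        have e6 : 0 ≤ 18 * g * L ^ 2 * P := by positivity
        nlinarith
    _ = _ := by
        rw [hB, mul_pow 2 L k0]
        ring

end TX1

end Pool.Agent.helper616_TW
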