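import Pool.Agent.helper616_TX.Defs
import Pool.Agent.helper616_TX.TX1
import Pool.Agent.helper616_TS.TU5

/-!
# Project TX (helper616): several variables
-/

set_option autoImplicit false
set_option maxHeartbeats 4000000

open Finset MeasureTheory Filter Topology
open Pool.Agent.helper616_TS (e LogBdd MeanZero)

namespace Pool.Agent.helper616_TW

open TX1 (msw)
open Pool.Agent.helper616_TS.TU5 (lint_prod)

namespace TX2


theorem e_add (x y : ℝ) : e (x + y) = e x * e y := by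
  unfold e
  rw [← Complex.exp_add]
  congr 1
  push_cast
  ring

theorem e_sum {ι : Type*} (t : Finset ι) (f : ι → ℝ) : e (∑ i ∈ t, f i) = ∏ i ∈ t, e (f i) := by
  classical
  induction t using Finset.induction_on with
  | empty => simp [e]
  | insert a t ha ih => rw [Finset.sum_insert ha, Finset.prod_insert ha, e_add, ih]

theorem norm_e (x : ℝ) : ‖e x‖ = 1 := by
  unfold e
  exact Complex.norm_exp_ofReal_mul_I _

/-- the one-dimensional sum -/
noncomputable def g1 (k P : ℕ) (w : ℕ → ℝ) (ξ x : ℝ) : ℂ :=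
  ∑ n ∈ Icc 1 P, (w n : ℂ) * e (ξ * (x * (n : ℝ) ^ k))

theorem S_eq {s : ℕ} (k P : ℕ) (w : Fin s → ℕ → ℝ) (l : Fin s → ℝ) (ξ : ℝ) :
    S k P w l ξ = ∏ i, g1 k P (w i) ξ (l i) := by
  unfold S g1 box
  rw [Finset.prod_univ_sum]
  apply Finset.sum_congr rfl
  intro x _
  rw [Finset.prod_mul_distrib]
  congr 1
  · unfold W
    push_cast
    rfl
  · unfold F
    rw [Finset.mul_sum, e_sum]

theorem g1_cont (k P : ℕ) (w : ℕ → ℝ) (ξ : ℝ) : Continuous (g1 k P w ξ) := by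
  unfold g1 e
  fun_prop

theorem enorm_prod' {ι : Type*} (t : Finset ι) (f : ι → ℂ) : ‖∏ i ∈ t, f i‖ₑ = ∏ i ∈ t, ‖f i‖ₑ := by
  classical
  induction t using Finset.induction_on with
  | empty => simp
  | insert a t ha ih => rw [Finset.prod_insert ha, Finset.prod_insert ha, enorm_mul, ih]

theorem int_prod {s : ℕ} (k P : ℕ) (a b : ℝ) (w : Fin s → ℕ → ℝ) (ξ : ℝ) :
    ∫⁻ l in cube s a b, ‖S k P w l ξ‖ₑ ^ 2 = ∏ i, ∫⁻ x in Set.Icc a b, ‖g1 k P (w i) ξ x‖ₑ ^ 2 := by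
  have hm : MeasurableSet (cube s a b) := by
    have : cube s a b = Set.pi Set.univ (fun _ => Set.Icc a b) := by
      ext l
      constructor
      · intro h i _
        exact h i
      · intro h i
        exact h i trivial
    rw [this]
    exact MeasurableSet.univ_pi (fun _ => measurableSet_Icc)
  rw [← lintegral_indicator hm]
  have h0 : ∀ l : Fin s → ℝ, (cube s a b).indicator (fun l => ‖S k P w l ξ‖ₑ ^ 2) l =
      ∏ i, (Set.Icc a b).indicator (fun x => ‖g1 k P (w i) ξ x‖ₑ ^ 2) (l i) := by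
    intro l
    by_cases hl : l ∈ cube s a b
    · rw [Set.indicator_of_mem hl, S_eq, enorm_prod', ← Finset.prod_pow]
      apply Finset.prod_congr rfl
      intro i _
      rw [Set.indicator_of_mem (hl i)]
    · rw [Set.indicator_of_notMem hl]
      simp only [cube, Set.mem_ofPred_eq, not_forall] at hl
      obtain ⟨i, hi⟩ := hl
      symm
      apply Finset.prod_eq_zero (Finset.mem_univ i)
      rw [Set.indicator_of_notMem hi]
  simp_rw [h0]
  rw [lint_prod s (fun i => (Set.Icc a b).indicator (fun x => ‖g1 k P (w i) ξ x‖ₑ ^ 2))]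
  · apply Finset.prod_congr rfl
    intro i _
    rw [lintegral_indicator measurableSet_Icc]
  · intro j
    exact (((g1_cont k P (w j) ξ).measurable.enorm).pow_const 2).indicator measurableSet_Icc

theorem log_up (P : ℕ) (hP : 2 ≤ P) (K K' : ℕ) :
    (Real.log P) ^ K ≤ (1 / Real.log 2) ^ K' * (Real.log P) ^ (K + K') := by
  have h2 : (0 : ℝ) < Real.log 2 := Real.log_pos (by norm_num)
  have hP' : (2 : ℝ) ≤ (P : ℝ) := by exact_mod_cast hP
  have hl : Real.log 2 ≤ Real.log P := Real.log_le_log (by norm_num) hP'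
  have h1 : (1 : ℝ) ≤ (1 / Real.log 2 * Real.log P) ^ K' := by
    apply one_le_pow₀
    rw [one_div, inv_mul_eq_div, le_div_iff₀ h2]
    linarith
  have h3 : 0 ≤ (Real.log P) ^ K := pow_nonneg (by linarith) _
  calc (Real.log P) ^ K = (Real.log P) ^ K * 1 := by ring
    _ ≤ (Real.log P) ^ K * (1 / Real.log 2 * Real.log P) ^ K' := mul_le_mul_of_nonneg_left h1 h3
    _ = _ := by rw [mul_pow, pow_add]; ring

theorem triv1 (k : ℕ) (a b : ℝ) (hab : a < b) (w : ℕ → ℝ) (hw : LogBdd w) :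
    ∃ (C : ℝ) (K : ℕ), 0 < C ∧ ∀ P : ℕ, 2 ≤ P → ∀ ξ : ℝ,
      ∫⁻ x in Set.Icc a b, ‖g1 k P w ξ x‖ₑ ^ 2 ≤ ENNReal.ofReal (C * (Real.log P) ^ K * (P : ℝ) ^ 2) := by
  obtain ⟨c, m, hc⟩ := hw
  refine ⟨(b - a) * (c ^ 2 + 1) * 4 ^ m, 2 * m, ?_, ?_⟩
  · have : 0 < b - a := by linarith
    positivity
  intro P hP ξ
  have hP' : (2 : ℝ) ≤ (P : ℝ) := by exact_mod_cast hP
  have h2 : (0 : ℝ) < Real.log 2 := Real.log_pos (by norm_num)
  have hl : Real.log 2 ≤ Real.log P := Real.log_le_log (by norm_num) hP'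
  have hlP : 0 < Real.log P := by linarith
  have hb : ∀ n ∈ Icc 1 P, |w n| ≤ |c| * (2 * Real.log P) ^ m := by
    intro n hn
    rw [Finset.mem_Icc] at hn
    have hn' : (n : ℝ) ≤ P := by exact_mod_cast hn.2
    have hn1 : (1 : ℝ) ≤ n := by exact_mod_cast hn.1
    have h3 : Real.log (n + 2) ≤ 2 * Real.log P := by
      have : (n : ℝ) + 2 ≤ (P : ℝ) ^ 2 := by nlinarith
      calc Real.log (n + 2) ≤ Real.log ((P : ℝ) ^ 2) := Real.log_le_log (by linarith) this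
        _ = 2 * Real.log P := by rw [Real.log_pow]; norm_num
    have h4 : 0 ≤ Real.log ((n : ℝ) + 2) := Real.log_nonneg (by linarith)
    calc |w n| ≤ c * (Real.log (n + 2)) ^ m := hc n
      _ ≤ |c| * (Real.log (n + 2)) ^ m := mul_le_mul_of_nonneg_right (le_abs_self c) (pow_nonneg h4 _)
      _ ≤ |c| * (2 * Real.log P) ^ m := mul_le_mul_of_nonneg_left (pow_le_pow_left₀ h4 h3 _) (abs_nonneg c)
  have hg : ∀ x, ‖g1 k P w ξ x‖ ≤ P * (|c| * (2 * Real.log P) ^ m) := by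
    intro x
    unfold g1
    calc ‖∑ n ∈ Icc 1 P, (w n : ℂ) * e (ξ * (x * (n : ℝ) ^ k))‖
        ≤ ∑ n ∈ Icc 1 P, ‖(w n : ℂ) * e (ξ * (x * (n : ℝ) ^ k))‖ := norm_sum_le _ _
      _ ≤ ∑ n ∈ Icc 1 P, |c| * (2 * Real.log P) ^ m := by
          apply Finset.sum_le_sum
          intro n hn
          rw [norm_mul, norm_e, mul_one, Complex.norm_real, Real.norm_eq_abs]
          exact hb n hn
      _ = P * (|c| * (2 * Real.log P) ^ m) := by
          rw [Finset.sum_const, Nat.card_Icc, nsmul_eq_mul]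
          congr 1
  have hB0 : 0 ≤ (P : ℝ) * (|c| * (2 * Real.log P) ^ m) := by positivity
  have hge : ∀ x, ‖g1 k P w ξ x‖ₑ ^ 2 ≤ ENNReal.ofReal ((P * (|c| * (2 * Real.log P) ^ m)) ^ 2) := by
    intro x
    rw [ENNReal.ofReal_pow hB0]
    apply pow_le_pow_left'
    rw [← ofReal_norm]
    exact ENNReal.ofReal_le_ofReal (hg x)
  calc ∫⁻ x in Set.Icc a b, ‖g1 k P w ξ x‖ₑ ^ 2
      ≤ ∫⁻ x in Set.Icc a b, ENNReal.ofReal ((P * (|c| * (2 * Real.log P) ^ m)) ^ 2) := lintegral_mono hge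
    _ = ENNReal.ofReal ((P * (|c| * (2 * Real.log P) ^ m)) ^ 2) * ENNReal.ofReal (b - a) := by
        rw [lintegral_const, Measure.restrict_apply MeasurableSet.univ, Set.univ_inter, Real.volume_Icc]
    _ = ENNReal.ofReal ((P * (|c| * (2 * Real.log P) ^ m)) ^ 2 * (b - a)) := by
        rw [ENNReal.ofReal_mul (by positivity)]
    _ ≤ _ := by
        apply ENNReal.ofReal_le_ofReal
        have e1 : (P * (|c| * (2 * Real.log P) ^ m)) ^ 2 * (b - a) =
            (b - a) * c ^ 2 * 4 ^ m * Real.log P ^ (2 * m) * (P : ℝ) ^ 2 := by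
          rw [mul_pow, mul_pow, sq_abs, ← pow_mul, mul_pow, pow_mul' 2 m 2]
          rw [show ((2 : ℝ) ^ 2) = 4 by norm_num, mul_comm m 2]
          ring
        rw [e1]
        have hba : 0 ≤ b - a := by linarith
        have : (b - a) * c ^ 2 * 4 ^ m * Real.log P ^ (2 * m) * (P : ℝ) ^ 2 +
            (b - a) * 4 ^ m * Real.log P ^ (2 * m) * (P : ℝ) ^ 2 =
            (b - a) * (c ^ 2 + 1) * 4 ^ m * Real.log P ^ (2 * m) * (P : ℝ) ^ 2 := by ring
        rw [← this]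
        have : 0 ≤ (b - a) * 4 ^ m * Real.log P ^ (2 * m) * (P : ℝ) ^ 2 := by positivity
        linarith

theorem both1 (k : ℕ) (hk : 1 ≤ k) (a b : ℝ) (ha : 0 < a) (hab : a < b) (w : ℕ → ℝ) (hw : LogBdd w) :
    ∃ (C : ℝ) (K : ℕ), 0 < C ∧ ∀ P : ℕ, 2 ≤ P →
      (∀ ξ : ℝ, 1 ≤ (P : ℝ) ^ k * |ξ| → ∫⁻ x in Set.Icc a b, ‖g1 k P w ξ x‖ₑ ^ 2 ≤
        ENNReal.ofReal (C * (Real.log P) ^ K * (P + (P : ℝ) ^ 2 * ((P : ℝ) ^ k * |ξ|) ^ (-rho k)))) ∧
      ∀ ξ : ℝ, ∫⁻ x in Set.Icc a b, ‖g1 k P w ξ x‖ₑ ^ 2 ≤ ENNReal.ofReal (C * (Real.log P) ^ K * (P : ℝ) ^ 2) := by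
  obtain ⟨C1, K1, hC1, h1⟩ := msw k hk a b ha hab w hw
  obtain ⟨C2, K2, hC2, h2⟩ := triv1 k a b hab w hw
  have hl2 : (0 : ℝ) < Real.log 2 := Real.log_pos (by norm_num)
  have hp1 : 0 < C1 * (1 / Real.log 2) ^ K2 := by positivity
  have hp2 : 0 < C2 * (1 / Real.log 2) ^ K1 := by positivity
  refine ⟨C1 * (1 / Real.log 2) ^ K2 + C2 * (1 / Real.log 2) ^ K1, K1 + K2, by positivity, ?_⟩
  intro P hP
  have hP' : (2 : ℝ) ≤ (P : ℝ) := by exact_mod_cast hP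
  have hl : Real.log 2 ≤ Real.log P := Real.log_le_log (by norm_num) hP'
  have hlP : 0 < Real.log P := by linarith
  constructor
  · intro ξ hξ
    refine (h1 P hP ξ hξ).trans (ENNReal.ofReal_le_ofReal ?_)
    have hY : 0 ≤ (P : ℝ) + (P : ℝ) ^ 2 * ((P : ℝ) ^ k * |ξ|) ^ (-rho k) := by positivity
    apply mul_le_mul_of_nonneg_right _ hY
    have h3 := log_up P hP K1 K2
    calc C1 * Real.log P ^ K1 ≤ C1 * ((1 / Real.log 2) ^ K2 * Real.log P ^ (K1 + K2)) :=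
          mul_le_mul_of_nonneg_left h3 hC1.le
      _ = C1 * (1 / Real.log 2) ^ K2 * Real.log P ^ (K1 + K2) := by ring
      _ ≤ (C1 * (1 / Real.log 2) ^ K2 + C2 * (1 / Real.log 2) ^ K1) * Real.log P ^ (K1 + K2) := by
          apply mul_le_mul_of_nonneg_right _ (by positivity)
          linarith
  · intro ξ
    refine (h2 P hP ξ).trans (ENNReal.ofReal_le_ofReal ?_)
    apply mul_le_mul_of_nonneg_right _ (by positivity)
    have h3 := log_up P hP K2 K1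
    calc C2 * Real.log P ^ K2 ≤ C2 * ((1 / Real.log 2) ^ K1 * Real.log P ^ (K2 + K1)) :=
          mul_le_mul_of_nonneg_left h3 hC2.le
      _ = C2 * (1 / Real.log 2) ^ K1 * Real.log P ^ (K1 + K2) := by rw [add_comm K2 K1]; ring
      _ ≤ (C1 * (1 / Real.log 2) ^ K2 + C2 * (1 / Real.log 2) ^ K1) * Real.log P ^ (K1 + K2) := by
          apply mul_le_mul_of_nonneg_right _ (by positivity)
          linarith

theorem prod_bound {s : ℕ} (I : Fin s → ENNReal) (C : Fin s → ℝ) (hC : ∀ i, 0 < C i) (K : Fin s → ℕ)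
    (L Y : ℝ) (hL : 0 ≤ L) (hY : 0 ≤ Y) (h : ∀ i, I i ≤ ENNReal.ofReal (C i * L ^ (K i) * Y)) :
    ∏ i, I i ≤ ENNReal.ofReal ((∏ i, C i) * L ^ (∑ i, K i) * Y ^ s) := by
  calc ∏ i, I i ≤ ∏ i, ENNReal.ofReal (C i * L ^ (K i) * Y) :=
        Finset.prod_le_prod (fun _ _ => zero_le) (fun i _ => h i)
    _ = ENNReal.ofReal (∏ i, (C i * L ^ (K i) * Y)) := by
        rw [ENNReal.ofReal_prod_of_nonneg]
        intro i _
        have := (hC i).le
        positivity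
    _ = _ := by
        congr 1
        rw [Finset.prod_mul_distrib, Finset.prod_mul_distrib, Finset.prod_pow_eq_pow_sum, Finset.prod_const,
          Finset.card_univ, Fintype.card_fin]

theorem prodmsw (k : ℕ) (hk : 1 ≤ k) (a b : ℝ) (ha : 0 < a) (hab : a < b) (s : ℕ) (w : Fin s → ℕ → ℝ)
    (hw : ∀ i, LogBdd (w i)) : ∃ (C : ℝ) (K : ℕ), 0 < C ∧ ∀ P : ℕ, 2 ≤ P →
      (∀ ξ : ℝ, 1 ≤ (P : ℝ) ^ k * |ξ| → ∫⁻ l in cube s a b, ‖S k P w l ξ‖ₑ ^ 2 ≤
        ENNReal.ofReal (C * (Real.log P) ^ K * ((P : ℝ) ^ s + (P : ℝ) ^ (2 * s) * ((P : ℝ) ^ k * |ξ|) ^ (-(s * rho k))))) ∧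
      ∀ ξ : ℝ, ∫⁻ l in cube s a b, ‖S k P w l ξ‖ₑ ^ 2 ≤ ENNReal.ofReal (C * (Real.log P) ^ K * (P : ℝ) ^ (2 * s)) := by
  choose C K hC hb using fun i => both1 k hk a b ha hab (w i) (hw i)
  have hCp : 0 < ∏ i, C i := Finset.prod_pos (fun i _ => hC i)
  refine ⟨2 ^ s * ∏ i, C i, ∑ i, K i, by positivity, ?_⟩
  intro P hP
  have hP' : (2 : ℝ) ≤ (P : ℝ) := by exact_mod_cast hP
  have hl2 : (0 : ℝ) < Real.log 2 := Real.log_pos (by norm_num)
  have hl : Real.log 2 ≤ Real.log P := Real.log_le_log (by norm_num) hP'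
  have hlP : 0 < Real.log P := by linarith
  constructor
  · intro ξ hξ
    have hY : 0 ≤ (P : ℝ) + (P : ℝ) ^ 2 * ((P : ℝ) ^ k * |ξ|) ^ (-rho k) := by positivity
    rw [int_prod]
    refine (prod_bound _ C hC K (Real.log P) _ hlP.le hY (fun i => (hb i P hP).1 ξ hξ)).trans
      (ENNReal.ofReal_le_ofReal ?_)
    have h1 : ((P : ℝ) + (P : ℝ) ^ 2 * ((P : ℝ) ^ k * |ξ|) ^ (-rho k)) ^ s ≤
        2 ^ s * ((P : ℝ) ^ s + (P : ℝ) ^ (2 * s) * ((P : ℝ) ^ k * |ξ|) ^ (-(s * rho k))) := by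
      have hX : 0 ≤ (P : ℝ) ^ k * |ξ| := by positivity
      have h2 := add_pow_le (a := (P : ℝ)) (b := (P : ℝ) ^ 2 * ((P : ℝ) ^ k * |ξ|) ^ (-rho k))
        (by positivity) (by positivity) s
      have h3 : ((P : ℝ) ^ 2 * ((P : ℝ) ^ k * |ξ|) ^ (-rho k)) ^ s =
          (P : ℝ) ^ (2 * s) * ((P : ℝ) ^ k * |ξ|) ^ (-(s * rho k)) := by
        rw [mul_pow, ← pow_mul, ← Real.rpow_natCast, ← Real.rpow_natCast (((P : ℝ) ^ k * |ξ|) ^ (-rho k)) s,
          ← Real.rpow_mul hX]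
        congr 2
        ring
      rw [h3] at h2
      refine h2.trans ?_
      apply mul_le_mul_of_nonneg_right _ (by positivity)
      exact pow_le_pow_right₀ (by norm_num) (Nat.sub_le _ _)
    calc (∏ i, C i) * Real.log P ^ (∑ i, K i) * ((P : ℝ) + (P : ℝ) ^ 2 * ((P : ℝ) ^ k * |ξ|) ^ (-rho k)) ^ s
        ≤ (∏ i, C i) * Real.log P ^ (∑ i, K i) *
          (2 ^ s * ((P : ℝ) ^ s + (P : ℝ) ^ (2 * s) * ((P : ℝ) ^ k * |ξ|) ^ (-(s * rho k)))) := by
          apply mul_le_mul_of_nonneg_left h1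
          positivity
      _ = _ := by ring
  · intro ξ
    rw [int_prod]
    refine (prod_bound _ C hC K (Real.log P) _ hlP.le (by positivity) (fun i => (hb i P hP).2 ξ)).trans
      (ENNReal.ofReal_le_ofReal ?_)
    rw [← pow_mul]
    have h1 : (1 : ℝ) ≤ 2 ^ s := one_le_pow₀ (by norm_num)
    have h2 : 0 ≤ (∏ i, C i) * Real.log P ^ (∑ i, K i) * (P : ℝ) ^ (2 * s) := by positivity
    calc (∏ i, C i) * Real.log P ^ (∑ i, K i) * (P : ℝ) ^ (2 * s)
        = 1 * ((∏ i, C i) * Real.log P ^ (∑ i, K i) * (P : ℝ) ^ (2 * s)) := by ring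
      _ ≤ 2 ^ s * ((∏ i, C i) * Real.log P ^ (∑ i, K i) * (P : ℝ) ^ (2 * s)) :=
          mul_le_mul_of_nonneg_right h1 h2
      _ = _ := by ring

end TX2

end Pool.Agent.helper616_TW
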