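import Pool.Agent.helper616_TX.Defs
import Pool.Agent.helper616_TW.TW2
import Pool.Agent.helper616_TW.TW3
import Pool.Agent.helper616_TX.TX2

/-!
# Project TX (helper616): the variance
-/

set_option autoImplicit false
set_option maxHeartbeats 4000000

open Finset MeasureTheory Filter Topology
open Pool.Agent.helper616_TS (e LogBdd MeanZero)

namespace Pool.Agent.helper616_TW

open TW2 (planch)
open TW3 (win_props)
open TX2 (prodmsw)

namespace TX3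


/-- joint continuity of the exponential sum -/
theorem cont_S {s : ℕ} (k P : ℕ) (w : Fin s → ℕ → ℝ) :
    Continuous (fun z : (Fin s → ℝ) × ℝ => S k P w z.1 z.2) := by
  unfold S F e
  fun_prop

theorem lint_cauchy (a b : ℝ) (ha : 0 < a) (hb : 0 < b) :
    ∫⁻ ξ : ℝ, ENNReal.ofReal (1 / (a ^ 2 + b ^ 2 * ξ ^ 2)) = ENNReal.ofReal (Real.pi / (a * b)) := by
  have e1 : ∀ ξ : ℝ, 1 / (a ^ 2 + b ^ 2 * ξ ^ 2) = (1 / a ^ 2) * (1 + ((b / a) * ξ) ^ 2)⁻¹ := by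
    intro ξ
    field_simp
  have hI : Integrable (fun ξ : ℝ => (1 / a ^ 2) * (1 + ((b / a) * ξ) ^ 2)⁻¹) :=
    ((integrable_inv_one_add_sq).comp_mul_left' (by positivity)).const_mul _
  simp_rw [e1]
  rw [← ofReal_integral_eq_lintegral_ofReal hI (ae_of_all _ fun ξ => by positivity)]
  congr 1
  rw [integral_const_mul, Measure.integral_comp_mul_left (fun x => (1 + x ^ 2)⁻¹) (b / a),
    integral_univ_inv_one_add_sq, smul_eq_mul, abs_of_pos (by positivity)]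
  field_simp

theorem rho_ge (k s : ℕ) (hk : 1 ≤ k) (hs : k + 1 ≤ s) : 2 ≤ (s : ℝ) * rho k := by
  have hk0 : (0 : ℝ) < k := by exact_mod_cast hk
  have hs' : (k : ℝ) + 1 ≤ s := by exact_mod_cast hs
  have hk1 : (1 : ℝ) ≤ k := by exact_mod_cast hk
  unfold rho
  rcases le_total (1 : ℝ) (2 / k) with h | h
  · rw [min_eq_left h]
    linarith
  · rw [min_eq_right h, mul_div_assoc', le_div_iff₀ hk0]
    nlinarith

theorem boundA {n ξ h : ℝ} (hn : 0 ≤ n) (h2 : n ≤ 2) (hh : 0 < h) (h3 : n ≤ 1 / (h * |ξ|))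
    (hξ : ξ ≠ 0) : n ^ 2 ≤ 8 * (1 / (1 ^ 2 + (2 * h) ^ 2 * ξ ^ 2)) := by
  have hx : 0 < |ξ| := abs_pos.2 hξ
  have h4 : n * (h * |ξ|) ≤ 1 := by rwa [le_div_iff₀ (by positivity)] at h3
  have h5 : (n * (h * |ξ|)) ^ 2 ≤ 1 := pow_le_one₀ (by positivity) h4
  have h6 : n ^ 2 ≤ 4 := by nlinarith
  rw [mul_one_div, le_div_iff₀ (by positivity)]
  have h7 : ξ ^ 2 = |ξ| ^ 2 := (sq_abs ξ).symm
  rw [h7]
  nlinarith

theorem boundB {n q L : ℝ} (hn : 0 ≤ n) (h2 : n ≤ 2) (hL : 0 < L) (hq : 0 ≤ q)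
    (h3 : n * L ≤ 4 * Real.pi * q) : n ^ 2 * (L ^ 2 + q ^ 2) ≤ (16 * Real.pi ^ 2 + 4) * q ^ 2 := by
  have h4 : (n * L) ^ 2 ≤ (4 * Real.pi * q) ^ 2 := pow_le_pow_left₀ (by positivity) h3 2
  have h6 : n ^ 2 ≤ 4 := by nlinarith
  have h7 : n ^ 2 * q ^ 2 ≤ 4 * q ^ 2 := mul_le_mul_of_nonneg_right h6 (by positivity)
  nlinarith

open FourierTransform in
theorem variancew (hPl : ∀ (g : ℝ → ℂ), Integrable g → MemLp g 2 →
      ∫⁻ ξ : ℝ, ‖𝓕 g ξ‖ₑ ^ 2 = ∫⁻ z : ℝ, ‖g z‖ₑ ^ 2)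
    (k : ℕ) (hk : 1 ≤ k) (a b h : ℝ) (ha : 0 < a) (hab : a < b) (hh : 0 < h) (s : ℕ) (hs : k + 1 ≤ s)
    (w : Fin s → ℕ → ℝ) (hw : ∀ i, LogBdd (w i)) :
    ∃ K : ℕ, ∀ B : ℕ, ∃ C : ℝ, 0 < C ∧ ∀ᶠ P : ℕ in atTop,
      ∫⁻ l in cube s a b, ∫⁻ t : ℝ, ‖∑ x ∈ box s P, (W w x : ℂ) * win h ((P : ℝ) ^ k / (Real.log P) ^ B) (F k l x - t)‖ₑ ^ 2 ≤
        ENNReal.ofReal (C * (P : ℝ) ^ (2 * s - k) * (Real.log P) ^ K / (Real.log P) ^ B) := by
  obtain ⟨C0, K, hC0, hmain⟩ := prodmsw k hk a b ha hab s w hw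
  have hpi := Real.pi_pos
  refine ⟨K, fun B => ?_⟩
  refine ⟨C0 * (4 * Real.pi / h + (16 * Real.pi ^ 2 + 4) * Real.pi), by positivity, ?_⟩
  have hlog : ∀ᶠ P : ℕ in atTop, (Real.log P) ^ B ≤ (1 / (1 + h)) * P := by
    have h1 := (Real.isLittleO_pow_log_id_atTop (n := B)).def (c := 1 / (1 + h)) (by positivity)
    have h2 := (tendsto_natCast_atTop_atTop (R := ℝ)).eventually h1
    filter_upwards [h2, eventually_ge_atTop 1] with P hP hP1
    simp only [id, Real.norm_eq_abs, Nat.abs_cast] at hP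
    exact (le_abs_self _).trans hP
  filter_upwards [hlog, eventually_ge_atTop 3] with P hP hP3
  obtain ⟨L, hLd⟩ : ∃ L : ℝ, L = (Real.log P) ^ B := ⟨_, rfl⟩
  obtain ⟨T, hTd⟩ : ∃ T : ℝ, T = (P : ℝ) ^ k := ⟨_, rfl⟩
  rw [← hLd] at hP ⊢
  rw [← hTd]
  have hP3' : (3 : ℝ) ≤ P := by exact_mod_cast hP3
  have hP0 : (0 : ℝ) < P := by linarith
  have hlog1 : 1 ≤ Real.log P := by
    rw [Real.le_log_iff_exp_le hP0]
    have := Real.exp_one_lt_d9
    linarith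
  have hL1 : 1 ≤ L := by rw [hLd]; exact one_le_pow₀ hlog1
  have hL0 : 0 < L := by linarith
  have hT0 : 0 < T := by rw [hTd]; positivity
  have hPT : (P : ℝ) ≤ T := by
    rw [hTd]
    calc (P : ℝ) = (P : ℝ) ^ 1 := (pow_one _).symm
      _ ≤ _ := pow_le_pow_right₀ (by linarith) hk
  have hLP : (1 + h) * L ≤ P := by
    have := mul_le_mul_of_nonneg_left hP (by positivity : 0 ≤ 1 + h)
    rwa [← mul_assoc, mul_one_div_cancel (by positivity), one_mul] at this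
  have hLP1 : L ≤ P := by nlinarith
  have hH : h ≤ T / L := by
    rw [le_div_iff₀ hL0]
    nlinarith
  obtain ⟨w1, w2, w3, w4, w5, w6⟩ := win_props h (T / L) hh hH
  obtain ⟨m1, m2⟩ := hmain P (by omega)
  obtain ⟨c, hc⟩ : ∃ c : ℝ, c = C0 * (Real.log P) ^ K := ⟨_, rfl⟩
  have hc0 : 0 < c := by rw [hc]; positivity
  have hrho := rho_ge k s hk hs
  -- Plancherel
  have e1 : ∀ l : Fin s → ℝ, ∫⁻ t : ℝ, ‖∑ x ∈ box s P, (W w x : ℂ) * win h (T / L) (F k l x - t)‖ₑ ^ 2 =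
      ∫⁻ ξ : ℝ, ‖𝓕 (win h (T / L)) ξ‖ₑ ^ 2 * ‖S k P w l ξ‖ₑ ^ 2 := fun l =>
    planch hPl (box s P) (W w) (F k l) (win h (T / L)) w1 w2
  have e2 : ∫⁻ l in cube s a b, ∫⁻ t : ℝ, ‖∑ x ∈ box s P, (W w x : ℂ) *
      win h (T / L) (F k l x - t)‖ₑ ^ 2 =
      ∫⁻ ξ : ℝ, ‖𝓕 (win h (T / L)) ξ‖ₑ ^ 2 * ∫⁻ l in cube s a b, ‖S k P w l ξ‖ₑ ^ 2 := by
    simp_rw [e1]
    rw [lintegral_lintegral_swap]
    · refine lintegral_congr fun ξ => ?_
      rw [lintegral_const_mul]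
      exact ((cont_S k P w).comp (by fun_prop : Continuous fun l : Fin s → ℝ => (l, ξ))).measurable.enorm.pow_const 2
    · refine Measurable.aemeasurable ?_
      exact ((w3.comp measurable_snd).enorm.pow_const 2).mul
        ((cont_S k P w).measurable.enorm.pow_const 2)
  rw [e2]
  have e3 : ∀ ξ : ℝ, ‖𝓕 (win h (T / L)) ξ‖ₑ ^ 2 * ∫⁻ l in cube s a b, ‖S k P w l ξ‖ₑ ^ 2 ≤
      ENNReal.ofReal (c * (P : ℝ) ^ s * 8) * ENNReal.ofReal (1 / (1 ^ 2 + (2 * h) ^ 2 * ξ ^ 2)) +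
      ENNReal.ofReal (c * (P : ℝ) ^ (2 * s) * (16 * Real.pi ^ 2 + 4)) *
        ENNReal.ofReal (1 / (L ^ 2 + T ^ 2 * ξ ^ 2)) := by
    intro ξ
    obtain ⟨n, hn⟩ : ∃ n : ℝ, n = ‖𝓕 (win h (T / L)) ξ‖ := ⟨_, rfl⟩
    have hn0 : 0 ≤ n := by rw [hn]; positivity
    have en : ‖𝓕 (win h (T / L)) ξ‖ₑ ^ 2 = ENNReal.ofReal (n ^ 2) := by
      rw [hn, ENNReal.ofReal_pow (norm_nonneg _), ofReal_norm]
    rcases eq_or_ne ξ 0 with h0 | h0
    · have : n = 0 := by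
        have := w5 ξ
        rw [h0, abs_zero, mul_zero] at this
        rw [hn, h0]
        exact le_antisymm this (norm_nonneg _)
      rw [en, this]
      simp
    have hx : 0 < |ξ| := abs_pos.2 h0
    have hn2 : n ≤ 2 := by rw [hn]; exact w4 ξ
    have hA := boundA hn0 hn2 hh (by rw [hn]; exact w6 ξ h0) h0
    have hBB := boundB (q := T * |ξ|) hn0 hn2 hL0 (by positivity) (by
      have := w5 ξ
      rw [← hn] at this
      calc n * L ≤ (4 * Real.pi * (T / L) * |ξ|) * L := mul_le_mul_of_nonneg_right this hL0.le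
        _ = 4 * Real.pi * (T * |ξ|) := by field_simp)
    have hq2 : (T * |ξ|) ^ 2 = T ^ 2 * ξ ^ 2 := by rw [mul_pow, sq_abs]
    have hD : 0 < L ^ 2 + T ^ 2 * ξ ^ 2 := by positivity
    rw [← ENNReal.ofReal_mul (by positivity), ← ENNReal.ofReal_mul (by positivity),
      ← ENNReal.ofReal_add (by positivity) (by positivity), en]
    rcases lt_or_ge (T * |ξ|) 1 with h1 | h1
    · have hY : n ^ 2 ≤ (16 * Real.pi ^ 2 + 4) * (1 / (L ^ 2 + T ^ 2 * ξ ^ 2)) := by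
        rw [mul_one_div, le_div_iff₀ hD, ← hq2]
        refine hBB.trans ?_
        have : (T * |ξ|) ^ 2 ≤ 1 := pow_le_one₀ (by positivity) h1.le
        calc (16 * Real.pi ^ 2 + 4) * (T * |ξ|) ^ 2 ≤ (16 * Real.pi ^ 2 + 4) * 1 :=
              mul_le_mul_of_nonneg_left this (by positivity)
          _ = _ := mul_one _
      calc ENNReal.ofReal (n ^ 2) * ∫⁻ l in cube s a b, ‖S k P w l ξ‖ₑ ^ 2
          ≤ ENNReal.ofReal (n ^ 2) * ENNReal.ofReal (c * (P : ℝ) ^ (2 * s)) := by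
            gcongr
            rw [hc]
            exact m2 ξ
        _ = ENNReal.ofReal (n ^ 2 * (c * (P : ℝ) ^ (2 * s))) := by
            rw [← ENNReal.ofReal_mul (by positivity)]
        _ ≤ _ := by
            refine ENNReal.ofReal_le_ofReal ?_
            have h5 : 0 ≤ c * (P : ℝ) ^ s * 8 * (1 / (1 ^ 2 + (2 * h) ^ 2 * ξ ^ 2)) := by positivity
            have h6 := mul_le_mul_of_nonneg_left hY (by positivity : 0 ≤ c * (P : ℝ) ^ (2 * s))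
            linarith
    · have hm := m1 ξ (by rw [← hTd]; exact h1)
      rw [← hTd, ← hc] at hm
      have hqp : 0 < T * |ξ| := by positivity
      have hr : (T * |ξ|) ^ (-(s * rho k)) ≤ ((T * |ξ|) ^ 2)⁻¹ := by
        calc (T * |ξ|) ^ (-(s * rho k)) ≤ (T * |ξ|) ^ (-2 : ℝ) :=
              Real.rpow_le_rpow_of_exponent_le h1 (by linarith)
          _ = _ := by rw [Real.rpow_neg hqp.le, Real.rpow_two]
      have hr0 : 0 ≤ (T * |ξ|) ^ (-(s * rho k)) := Real.rpow_nonneg hqp.le _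
      have hY : n ^ 2 * (T * |ξ|) ^ (-(s * rho k)) ≤
          (16 * Real.pi ^ 2 + 4) * (1 / (L ^ 2 + T ^ 2 * ξ ^ 2)) := by
        refine (mul_le_mul_of_nonneg_left hr (by positivity)).trans ?_
        rw [mul_one_div, le_div_iff₀ hD, ← hq2]
        calc n ^ 2 * ((T * |ξ|) ^ 2)⁻¹ * (L ^ 2 + (T * |ξ|) ^ 2)
            = n ^ 2 * (L ^ 2 + (T * |ξ|) ^ 2) * ((T * |ξ|) ^ 2)⁻¹ := by ring
          _ ≤ ((16 * Real.pi ^ 2 + 4) * (T * |ξ|) ^ 2) * ((T * |ξ|) ^ 2)⁻¹ :=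
              mul_le_mul_of_nonneg_right hBB (by positivity)
          _ = 16 * Real.pi ^ 2 + 4 := by
              rw [mul_assoc, mul_inv_cancel₀ (by positivity), mul_one]
      calc ENNReal.ofReal (n ^ 2) * ∫⁻ l in cube s a b, ‖S k P w l ξ‖ₑ ^ 2
          ≤ ENNReal.ofReal (n ^ 2) * ENNReal.ofReal (c * ((P : ℝ) ^ s +
            (P : ℝ) ^ (2 * s) * (T * |ξ|) ^ (-(s * rho k)))) := by
            gcongr
        _ = ENNReal.ofReal (n ^ 2 * (c * ((P : ℝ) ^ s +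
            (P : ℝ) ^ (2 * s) * (T * |ξ|) ^ (-(s * rho k))))) := by
            rw [← ENNReal.ofReal_mul (by positivity)]
        _ ≤ _ := by
            refine ENNReal.ofReal_le_ofReal ?_
            have h5 := mul_le_mul_of_nonneg_left hA (by positivity : 0 ≤ c * (P : ℝ) ^ s)
            have h6 := mul_le_mul_of_nonneg_left hY (by positivity : 0 ≤ c * (P : ℝ) ^ (2 * s))
            linarith
  refine (lintegral_mono e3).trans ?_
  have mz : ∀ u v : ℝ, Measurable fun ξ : ℝ => ENNReal.ofReal (1 / (u ^ 2 + v ^ 2 * ξ ^ 2)) := by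
    intro u v
    fun_prop
  rw [lintegral_add_left ((mz _ _).const_mul _), lintegral_const_mul _ (mz _ _),
    lintegral_const_mul _ (mz _ _), lint_cauchy 1 (2 * h) one_pos (by positivity),
    lint_cauchy L T hL0 hT0, ← ENNReal.ofReal_mul (by positivity),
    ← ENNReal.ofReal_mul (by positivity), ← ENNReal.ofReal_add (by positivity) (by positivity)]
  refine ENNReal.ofReal_le_ofReal ?_
  have hp1 : (P : ℝ) ^ (2 * s) = (P : ℝ) ^ (2 * s - k) * T := by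
    rw [hTd, ← pow_add]
    congr 1
    omega
  have hp2 : (P : ℝ) ^ s * L ≤ (P : ℝ) ^ (2 * s - k) := by
    calc (P : ℝ) ^ s * L ≤ (P : ℝ) ^ s * P := mul_le_mul_of_nonneg_left hLP1 (by positivity)
      _ = (P : ℝ) ^ (s + 1) := (pow_succ _ _).symm
      _ ≤ _ := pow_le_pow_right₀ (by linarith) (by omega)
  have hp3 : (P : ℝ) ^ s ≤ (P : ℝ) ^ (2 * s - k) / L := by rwa [le_div_iff₀ hL0]
  have hf1 : c * (P : ℝ) ^ s * 8 * (Real.pi / (1 * (2 * h))) ≤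
      c * (4 * Real.pi / h) * ((P : ℝ) ^ (2 * s - k) / L) := by
    calc c * (P : ℝ) ^ s * 8 * (Real.pi / (1 * (2 * h))) = c * (4 * Real.pi / h) * (P : ℝ) ^ s := by
          field_simp
          ring
      _ ≤ _ := mul_le_mul_of_nonneg_left hp3 (by positivity)
  have hf2 : c * (P : ℝ) ^ (2 * s) * (16 * Real.pi ^ 2 + 4) * (Real.pi / (L * T)) =
      c * ((16 * Real.pi ^ 2 + 4) * Real.pi) * ((P : ℝ) ^ (2 * s - k) / L) := by
    rw [hp1]
    field_simp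
  have hf3 : C0 * (4 * Real.pi / h + (16 * Real.pi ^ 2 + 4) * Real.pi) * (P : ℝ) ^ (2 * s - k) *
      Real.log P ^ K / L = c * (4 * Real.pi / h) * ((P : ℝ) ^ (2 * s - k) / L) +
      c * ((16 * Real.pi ^ 2 + 4) * Real.pi) * ((P : ℝ) ^ (2 * s - k) / L) := by
    rw [hc]
    ring
  rw [hf3]
  linarith

end TX3

end Pool.Agent.helper616_TW
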