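import Pool.Agent.helper616_TW.Defs

/-!
# Project TX (helper616): the problem of Waring with almost all real coefficients, weights
-/

set_option autoImplicit false

open Finset MeasureTheory Filter Topology
open Pool.Agent.helper616_TS (e LogBdd MeanZero)

namespace Pool.Agent.helper616_TW

/-- the diagonal form for real arguments -/
noncomputable def FR {s : ℕ} (k : ℕ) (l u : Fin s → ℝ) : ℝ := ∑ i, l i * (u i) ^ k

/-- the weight of a point -/
noncomputable def W {s : ℕ} (w : Fin s → ℕ → ℝ) (x : Fin s → ℕ) : ℝ := ∏ i, w i (x i)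

/-- the weighted number of the points of the box with `t < F(x) ≤ t + h` -/
noncomputable def Rw {s : ℕ} (k P : ℕ) (w : Fin s → ℕ → ℝ) (l : Fin s → ℝ) (t h : ℝ) : ℝ :=
  ∑ x ∈ (box s P).filter (fun x => t < F k l x ∧ F k l x ≤ t + h), W w x

/-- the exponential sum -/
noncomputable def S {s : ℕ} (k P : ℕ) (w : Fin s → ℕ → ℝ) (l : Fin s → ℝ) (ξ : ℝ) : ℂ :=
  ∑ x ∈ box s P, (W w x : ℂ) * e (ξ * F k l x)

/-- the volume of the region `F ≤ 1` -/
noncomputable def V {s : ℕ} (k : ℕ) (l : Fin s → ℝ) : ℝ :=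
  (volume {u : Fin s → ℝ | (∀ i, 0 < u i) ∧ FR k l u ≤ 1}).toReal

/-- the density of the values of `F` at `t` -/
noncomputable def D {s : ℕ} (k : ℕ) (l : Fin s → ℝ) (t : ℝ) : ℝ := (s : ℝ) / k * V k l * t ^ ((s : ℝ) / k - 1)

/-- the triangle -/
noncomputable def tri (y : ℝ) : ℝ := max 0 (1 - |y|)

/-- the weighted number of points near `t`, with a triangle as weight -/
noncomputable def N {s : ℕ} (k P : ℕ) (w : Fin s → ℕ → ℝ) (l : Fin s → ℝ) (t h : ℝ) : ℝ :=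
  ∑ x ∈ box s P, W w x * tri ((F k l x - t) / h)

/-- the exponent -/
noncomputable def rho (k : ℕ) : ℝ := min 1 (2 / (k : ℝ))

/-- the integral over the frequencies -/
noncomputable def DD {s : ℕ} (k P : ℕ) (w : Fin s → ℕ → ℝ) (l : Fin s → ℝ) (H : ℝ) : ENNReal :=
  ∫⁻ ξ : ℝ, ENNReal.ofReal (min 1 ((H * ξ) ^ 2) * min 1 (1 / ξ ^ 2)) * ‖S k P w l ξ‖ₑ

/-- all solutions -/
noncomputable def Nall {s : ℕ} (k : ℕ) (w : Fin s → ℕ → ℝ) (l : Fin s → ℝ) (t h : ℝ) : ℝ :=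
  ∑ᶠ x ∈ {x : Fin s → ℕ | (∀ i, 1 ≤ x i) ∧ t < F k l x ∧ F k l x ≤ t + h}, W w x

end Pool.Agent.helper616_TW
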